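import Pool.Agent.P.MP_5f3b23_lc.ChangMain

open Cardinal Set Pool.Agent.P.MP_5f3b23_lc

universe u

theorem Pool.Agent.Results.MP_5f3b23_lc.ChangTransfer.result :
    ∀ lam mu : Cardinal.{u}, lam.IsStrongLimit → lam.ord.cof = ℵ₀ → ℵ₀ ≤ mu → mu < lam →
      Chang (Order.succ lam) lam (Order.succ mu) mu →
        ∀ d : (Order.succ lam).ord.ToType → (Order.succ lam).ord.ToType → lam.ord.ToType,
          IsStationary ({α | Order.cof (Iio α) = Order.succ mu} \ injSet d) :=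
  fun _ _ h1 h2 h3 h4 h5 d => Pool.Agent.P.MP_5f3b23_lc.chang_main h1 h2 h3 h4 h5 d
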