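import Pool.Agent.P.MP_5f3b23_lc.ZfcA

open Cardinal Set Pool.Agent.P.MP_5f3b23_lc

universe u

theorem Pool.Agent.Results.MP_5f3b23_lc.OmegaSuccessor.result :
    ∀ (a : Ordinal.{u}) (lam σ : Cardinal.{u}), lam = ℵ_ (a + Ordinal.omega0) →
      2 ^ (ℵ_ a ^ ℵ₀) < lam → σ < lam → lam ≤ 2 ^ σ →
      ∃ (d : (Order.succ lam).ord.ToType → (Order.succ lam).ord.ToType → lam.ord.ToType)
        (γ : (Order.succ lam).ord.ToType), ∀ α, γ < α → α ∈ injSetRows σ d :=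
  Pool.Agent.P.MP_5f3b23_lc.zfc_main
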