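import Pool.Agent.P.MP_5f3b23_lc.ZMain

set_option autoImplicit false

open Pool.Agent.Lib.PosetForcing Pool.Agent.P.MP_5f3b23_lc.Zf

universe u

/-- Every model of ZFC with a supercompact cardinal has a singular cardinal `l` such that for
every `d : l⁺ × l⁺ → l` every club of `l⁺` contains a point `a ∉ A(d)` with `cf a ≠ cf l`. -/
theorem Pool.Agent.Results.MP_5f3b23_lc.RelConsistent.result :
    ∀ (M : Type u) (mem : M → M → Prop), IsZFC mem → (∃ k, Supercompact mem k) →
      ∃ l K, Singular mem l ∧ IsSuccCard mem K l ∧ ∀ d, IsFun2 mem d K l → ∀ C, Club mem C K →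
        ∃ a, mem a C ∧ (∃ c c', IsCof mem l c ∧ IsCof mem a c' ∧ c ≠ c') ∧ ¬ InA mem d a :=
  fun M mem h ⟨_, hk⟩ => @main M { mem := fun a x => mem x a, zfc := h } _ hk
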