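import Pool.Agent.P.MP_5f3b23_lc.RowMain

open Cardinal Set Pool.Agent.P.MP_5f3b23_lc

universe u

theorem Pool.Agent.Results.MP_5f3b23_lc.RowThreshold.result :
    ∀ κ lam θ : Cardinal.{u}, IsSupercompact κ → κ ≤ lam → lam.ord.cof ≤ θ →
      ((∀ d : (Order.succ lam).ord.ToType → (Order.succ lam).ord.ToType → lam.ord.ToType,
          IsStationary ({α | Order.cof (Iio α) < κ ∧ Order.cof (Iio α) ≠ lam.ord.cof} \
            injSetRows θ d)) ↔
        lam.ord.cof < κ ∧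
          ∀ σ : Cardinal.{u}, σ.IsRegular → σ ≤ θ → σ < lam → ∀ ν < lam, ν ^ σ < lam) :=
  fun _ _ _ h1 h2 h3 => Pool.Agent.P.MP_5f3b23_lc.rows_main h1 h2 h3
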